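import Mathlib

set_option autoImplicit false
set_option linter.unusedSectionVars false

namespace Pool.Agent.H.MP_3384ed_al

open scoped commutatorElement

structure Setup (G : Type) [Group G] (Z P : Subgroup G) (τ : G →* G) : Prop where
  zc : ∀ z ∈ Z, ∀ g, g * z = z * g
  z3 : ∀ z ∈ Z, z ^ 3 = 1
  zsub : ∀ W : Subgroup G, W ≤ Z → W = ⊥ ∨ W = Z
  pp : ⁅P, P⁆ = P
  pz : ¬ P ≤ Z
  zp : Z ≤ P
  cyc : ∃ g0 : G, ∀ g, ∃ k : ℕ, (g0 ^ k)⁻¹ * g ∈ P
  pn : P.Normal
  nrm : ∀ N : Subgroup G, N.Normal → N ≤ Z ∨ P ≤ N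
  tinj : Function.Injective τ
  tz : ∀ z ∈ Z, τ z = z⁻¹
  tp : ∀ g, g⁻¹ * τ g ∈ P
  mult : ∀ (L : Type) [Group L] [Finite L] (π : L →* G), π.range = P → Group.IsPerfect L →
    (∀ l, π l ∈ Z → ∀ x, x * l = l * x) → (∀ l, π l = 1 → l ^ 3 = 1) → Function.Injective π

lemma comm_le {S : Type} [Group S] (M : Subgroup S) [M.Normal] (g : S)
    (h : ∀ s : S, ∃ k : ℕ, ∀ x : S, ⁅x, (g ^ k)⁻¹ * s⁆ ∈ M) : commutator S ≤ M := by
  rw [commutator_def, Subgroup.commutator_le]
  intro a _ b _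
  obtain ⟨k, hk⟩ := h a
  obtain ⟨m, hm⟩ := h b
  set q := QuotientGroup.mk' M with hq
  have hmem : ∀ x, x ∈ M ↔ q x = 1 := fun x => (QuotientGroup.eq_one_iff x).symm
  have hc : ∀ y : S, (∀ x : S, ⁅x, y⁆ ∈ M) → ∀ x, Commute (q x) (q y) := by
    intro y hy x
    have := (hmem _).1 (hy x)
    rwa [map_commutatorElement, commutatorElement_eq_one_iff_commute] at this
  rw [hmem, map_commutatorElement, commutatorElement_eq_one_iff_commute]
  have ha : q a = q g ^ k * q ((g ^ k)⁻¹ * a) := by rw [← map_pow, ← map_mul]; congr 1; group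
  have hb : q b = q g ^ m * q ((g ^ m)⁻¹ * b) := by rw [← map_pow, ← map_mul]; congr 1; group
  rw [hb]
  refine Commute.mul_right ?_ (hc _ hm a)
  rw [ha]
  refine Commute.mul_left ((Commute.refl _).pow_pow _ _) ?_
  rw [← map_pow]
  exact (hc _ hk _).symm

variable {G : Type} [Group G] {Z P : Subgroup G} {τ : G →* G}

lemma Setup.zn (h : Setup G Z P τ) : Z.Normal :=
  ⟨fun z hz g => by rw [h.zc z hz g]; simpa using hz⟩

lemma Setup.cle (h : Setup G Z P τ) : commutator G ≤ P := by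
  obtain ⟨g0, hg⟩ := h.cyc
  have := h.pn
  refine comm_le P g0 fun s => ?_
  obtain ⟨k, hk⟩ := hg s
  refine ⟨k, fun x => ?_⟩
  rw [commutatorElement_def, mul_assoc, mul_assoc, ← mul_assoc x, ← mul_assoc]
  exact P.mul_mem (this.conj_mem _ hk x) (P.inv_mem hk)

/-- an element centralising `P` modulo `Z` lies in `Z` -/
lemma Setup.cent (h : Setup G Z P τ) (g : G) (hg : ∀ p ∈ P, ⁅g, p⁆ ∈ Z) : g ∈ Z := by
  have hZ := h.zn
  have hP := h.pn
  let N : Subgroup G :=
    { carrier := {g | ∀ p ∈ P, ⁅g, p⁆ ∈ Z}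
      one_mem' := fun p _ => by simp
      mul_mem' := fun {a b} ha hb p hp => by
        have e : ⁅a * b, p⁆ = a * ⁅b, p⁆ * a⁻¹ * ⁅a, p⁆ := by
          simp only [commutatorElement_def]; group
        rw [e]; exact Z.mul_mem (hZ.conj_mem _ (hb p hp) a) (ha p hp)
      inv_mem' := fun {a} ha p hp => by
        have e : ⁅a⁻¹, p⁆ = a⁻¹ * ⁅a, p⁆⁻¹ * a⁻¹⁻¹ := by
          simp only [commutatorElement_def]; group
        rw [e]; exact hZ.conj_mem _ (Z.inv_mem (ha p hp)) _ }
  have hN : N.Normal := ⟨fun a ha x p hp => by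
    have e : ⁅x * a * x⁻¹, p⁆ = x * ⁅a, x⁻¹ * p * x⁻¹⁻¹⁆ * x⁻¹ := by
      simp only [commutatorElement_def]; group
    rw [e]; exact hZ.conj_mem _ (ha _ (hP.conj_mem _ hp _)) _⟩
  rcases h.nrm N hN with h1 | h1
  · exact h1 hg
  · exfalso
    apply h.pz
    rw [← h.pp, Subgroup.commutator_le]
    intro a ha b hb
    exact h1 ha b hb

section comp
variable {S : Type} [Group S] [Finite S] {ι : Type} [Finite ι] (π : ι → S →* G)

lemma big (h : Setup G Z P τ) (hs : ∀ i, Function.Surjective (π i)) (i : ι) (J : Finset ι)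
    (hJ : ∀ j ∈ J, Z.comap (π j) ≠ Z.comap (π i)) :
    ∃ D : Subgroup S, D.Normal ∧ P ≤ D.map (π i) ∧ ∀ j ∈ J, D ≤ Z.comap (π j) := by
  classical
  have hZ := h.zn
  induction J using Finset.induction_on with
  | empty =>
    refine ⟨⊤, inferInstance, ?_, by simp⟩
    rw [Subgroup.map_top_of_surjective _ (hs i)]; exact le_top
  | insert j J hj ih =>
    obtain ⟨D, hD, hP, hle⟩ := ih fun k hk => hJ k (Finset.mem_insert_of_mem hk)
    have hC : (Z.comap (π j)).Normal := inferInstance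
    have h1 : P ≤ (Z.comap (π j)).map (π i) := by
      rcases h.nrm _ (hC.map _ (hs i)) with h2 | h2
      · exfalso
        apply hJ j (Finset.mem_insert_self _ _)
        have hle : Z.comap (π j) ≤ Z.comap (π i) := Subgroup.map_le_iff_le_comap.1 h2
        apply Subgroup.eq_of_le_of_card_ge hle
        have e1 := (Z.comap (π j)).card_mul_index
        have e2 := (Z.comap (π i)).card_mul_index
        rw [Subgroup.index_comap_of_surjective _ (hs _)] at e1 e2
        have hpos : 0 < Z.index := by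
          rcases Nat.eq_zero_or_pos Z.index with h0 | h0
          · rw [h0, mul_zero] at e1; exact absurd e1.symm Nat.card_pos.ne'
          · exact h0
        exact (Nat.eq_of_mul_eq_mul_right hpos (e2.trans e1.symm)).le
      · exact h2
    refine ⟨⁅D, Z.comap (π j)⁆, inferInstance, ?_, ?_⟩
    · rw [Subgroup.map_commutator, ← h.pp]
      exact Subgroup.commutator_mono hP h1
    · intro k hk
      rcases Finset.mem_insert.1 hk with rfl | hk
      · exact Subgroup.commutator_le_right _ _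
      · exact (Subgroup.commutator_le_left _ _).trans (hle k hk)

lemma comp (h : Setup G Z P τ) (hs : ∀ i, Function.Surjective (π i))
    (hi : ∀ s, (∀ i, π i s = 1) → s = 1) (i : ι) :
    ∃ L : Subgroup S, L.Normal ∧ L.map (π i) = P ∧ (∀ l ∈ L, π i l = 1 → l = 1) ∧
      (∀ j, Z.comap (π j) ≠ Z.comap (π i) → ∀ l ∈ L, π j l = 1) ∧ L ≤ commutator S := by
  classical
  have := Fintype.ofFinite ι
  obtain ⟨D, hD, hP, hle⟩ := big π h hs i
    (Finset.univ.filter fun j => Z.comap (π j) ≠ Z.comap (π i)) (by simp)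
  replace hle : ∀ j, Z.comap (π j) ≠ Z.comap (π i) → D ≤ Z.comap (π j) :=
    fun j hj => hle j (by simpa using hj)
  have h1 : (⁅D, D⁆).map (π i) = P := by
    apply le_antisymm
    · rw [Subgroup.map_commutator]
      exact (Subgroup.commutator_mono le_top le_top).trans h.cle
    · rw [Subgroup.map_commutator, ← h.pp]
      exact Subgroup.commutator_mono hP hP
  have h2 : ∀ j, Z.comap (π j) ≠ Z.comap (π i) → ∀ l ∈ ⁅D, D⁆, π j l = 1 := by
    intro j hj
    change ⁅D, D⁆ ≤ (π j).ker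
    rw [Subgroup.commutator_le]
    intro a ha b hb
    rw [MonoidHom.mem_ker, map_commutatorElement, commutatorElement_eq_one_iff_mul_comm]
    exact h.zc _ (hle j hj hb) _
  have hz : ∀ l ∈ ⁅D, D⁆, π i l ∈ Z → ∀ j, π j l ∈ Z := by
    intro l hl hli j
    by_cases hj : Z.comap (π j) = Z.comap (π i)
    · have : l ∈ Z.comap (π j) := by rw [hj]; exact hli
      exact this
    · rw [h2 j hj l hl]; exact Z.one_mem
  have hcen : ∀ l ∈ ⁅D, D⁆, π i l ∈ Z → ∀ x, x * l = l * x := by
    intro l hl hli x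
    rw [← commutatorElement_eq_one_iff_mul_comm]
    apply hi
    intro j
    rw [map_commutatorElement, commutatorElement_eq_one_iff_mul_comm]
    exact h.zc _ (hz l hl hli j) _
  set E := ⁅D, D⁆ with hE
  have hEn : E.Normal := inferInstance
  have hLE : ⁅E, E⁆ ≤ E := Subgroup.commutator_le_left _ _
  have h3 : (⁅E, E⁆).map (π i) = P := by rw [Subgroup.map_commutator, h1, h.pp]
  have hdec : ∀ a ∈ E, ∃ a' ∈ ⁅E, E⁆, ∃ z, (∀ x, x * z = z * x) ∧ a = a' * z := by
    intro a ha
    have : π i a ∈ (⁅E, E⁆).map (π i) := by rw [h3, ← h1]; exact ⟨a, ha, rfl⟩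
    obtain ⟨a', ha', e⟩ := this
    refine ⟨a', ha', a'⁻¹ * a, hcen _ (E.mul_mem (E.inv_mem (hLE ha')) ha) ?_, by group⟩
    rw [map_mul, map_inv, e, inv_mul_cancel]; exact Z.one_mem
  have hperf : ⁅⁅E, E⁆, ⁅E, E⁆⁆ = ⁅E, E⁆ := by
    apply le_antisymm (Subgroup.commutator_le_left _ _)
    refine (Subgroup.commutator_le).2 ?_
    intro a ha b hb
    obtain ⟨a', ha', z, hz, rfl⟩ := hdec a ha
    obtain ⟨b', hb', w, hw, rfl⟩ := hdec b hb
    have e : ⁅a' * z, b' * w⁆ = ⁅a', b'⁆ := by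
      have e1 : ∀ x y : S, (∀ u : S, u * y = y * u) → ∀ v : S, x * y * v * (x * y)⁻¹ = x * v * x⁻¹ := by
        intro x y hy v
        rw [mul_assoc x y v, ← hy v]; group
      rw [commutatorElement_def, e1 _ _ hz, ← commutatorElement_def, ← commutatorElement_inv,
        commutatorElement_def, e1 _ _ hw, ← commutatorElement_def, commutatorElement_inv]
    rw [e]
    exact Subgroup.commutator_mem_commutator ha' hb'
  have hinj := h.mult (⁅E, E⁆ : Subgroup S) ((π i).comp (Subgroup.subtype _))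
    (by rw [MonoidHom.range_comp, Subgroup.range_subtype, h3])
    (Subgroup.isPerfect_iff.2 hperf)
    (fun l hl x => Subtype.ext (hcen l.1 (hLE l.2) hl x.1))
    (fun l hl => Subtype.ext (by
      apply hi
      intro j
      have : π i l.1 ∈ Z := by
        have : π i l.1 = 1 := hl
        rw [this]; exact Z.one_mem
      change π j (l.1 ^ 3) = 1
      rw [map_pow]
      exact h.z3 _ (hz _ (hLE l.2) this j)))
  refine ⟨⁅E, E⁆, inferInstance, h3, ?_, fun j hj l hl => h2 j hj l (hLE hl),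
    Subgroup.commutator_mono le_top le_top⟩
  intro l hl hli
  have : (⟨l, hl⟩ : (⁅E, E⁆ : Subgroup S)) = 1 := hinj (by simpa using hli)
  exact congrArg Subtype.val this

lemma ab_case (h : Setup G Z P τ) (hs : ∀ i, Function.Surjective (π i))
    (hi : ∀ s, (∀ i, π i s = 1) → s = 1) (L : ι → Subgroup S) (hLn : ∀ i, (L i).Normal)
    (hL1 : ∀ i, (L i).map (π i) = P)
    (hL2 : ∀ i j, Z.comap (π j) ≠ Z.comap (π i) → ∀ l ∈ L i, π j l = 1)
    (hL3 : ∀ i, L i ≤ commutator S) (N : Subgroup S) (hN : ∀ i, L i ≤ N) :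
    commutator S ≤ N := by
  classical
  have key : ∀ i, ∀ c ∈ commutator S, ∃ l ∈ L i,
      ∀ j, Z.comap (π j) = Z.comap (π i) → π j (c * l⁻¹) = 1 := by
    intro i
    let K : Subgroup S := ⨅ j : {j // Z.comap (π j) = Z.comap (π i)}, (π j.1).ker
    have hK : K.Normal := Subgroup.normal_iInf_normal fun j => inferInstance
    have hmK : ∀ x, x ∈ K ↔ ∀ j, Z.comap (π j) = Z.comap (π i) → π j x = 1 := by
      intro x; simp [K, Subgroup.mem_iInf]
    have := hLn i
    obtain ⟨g0, hg⟩ := h.cyc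
    obtain ⟨g, rfl⟩ := hs i g0
    have hle : commutator S ≤ K ⊔ L i := by
      refine comm_le _ g fun s => ?_
      obtain ⟨k, hk⟩ := hg (π i s)
      rw [← hL1 i] at hk
      obtain ⟨l, hl, e⟩ := hk
      refine ⟨k, fun x => ?_⟩
      have e2 : ⁅x, (g ^ k)⁻¹ * s⁆ = ⁅x, l⁆ * (l * ⁅x, l⁻¹ * ((g ^ k)⁻¹ * s)⁆ * l⁻¹) := by
        simp only [commutatorElement_def]; group
      rw [e2]
      refine Subgroup.mul_mem _ (Subgroup.mem_sup_right ?_) (Subgroup.mem_sup_left ?_)
      · rw [commutatorElement_def]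
        exact (L i).mul_mem (this.conj_mem _ hl x) ((L i).inv_mem hl)
      · refine hK.conj_mem _ ?_ _
        rw [hmK]
        intro j hj
        rw [map_commutatorElement, commutatorElement_eq_one_iff_mul_comm]
        apply h.zc
        have : l⁻¹ * ((g ^ k)⁻¹ * s) ∈ Z.comap (π j) := by
          rw [hj, Subgroup.mem_comap, map_mul, map_inv, e, map_mul, map_inv, map_pow,
            inv_mul_cancel]
          exact Z.one_mem
        exact this
    intro c hc
    obtain ⟨k, hk, l, hl, e⟩ := (Subgroup.mem_sup_of_normal_left).1 (hle hc)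
    refine ⟨l, hl, fun j hj => ?_⟩
    rw [← e, mul_inv_cancel_right]
    exact (hmK k).1 hk j hj
  have ind : ∀ J : Finset ι, ∀ c ∈ commutator S, ∃ p ∈ N, p ∈ commutator S ∧
      ∀ j ∈ J, π j (c * p⁻¹) = 1 := by
    intro J
    induction J using Finset.induction_on with
    | empty => intro c _; exact ⟨1, N.one_mem, Subgroup.one_mem _, by simp⟩
    | insert i J _ ih =>
      intro c hc
      obtain ⟨p, hp, hp', hJ⟩ := ih c hc
      obtain ⟨l, hl, hl'⟩ := key i (c * p⁻¹) (Subgroup.mul_mem _ hc (Subgroup.inv_mem _ hp'))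
      refine ⟨l * p, N.mul_mem (hN i hl) hp, Subgroup.mul_mem _ (hL3 i hl) hp', ?_⟩
      intro j hj
      rw [mul_inv_rev, ← mul_assoc]
      by_cases hji : Z.comap (π j) = Z.comap (π i)
      · exact hl' j hji
      · rcases Finset.mem_insert.1 hj with rfl | hj
        · exact absurd rfl hji
        · rw [map_mul, hJ j hj, map_inv, hL2 i j hji l hl]; simp
  intro c hc
  have := Fintype.ofFinite ι
  obtain ⟨p, hp, _, hJ⟩ := ind Finset.univ c hc
  have := hi _ fun j => hJ j (Finset.mem_univ _)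
  rw [mul_inv_eq_one] at this
  rw [this]; exact hp

end comp

end Pool.Agent.H.MP_3384ed_al
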