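import Pool.Agent.H.MP_3384ed_al.A

set_option autoImplicit false
set_option linter.unusedSectionVars false

namespace Pool.Agent.H.MP_3384ed_al

open scoped commutatorElement

def Mono (Y : Type) [Group Y] : Prop :=
  ∀ N1 N2 : Subgroup Y, N1.Normal → N2.Normal → N1 ⊓ N2 = ⊥ → N1 = ⊥ ∨ N2 = ⊥

lemma ab_small (Y : Type) [Group Y] [Finite Y] (hm : Mono Y) (hc : ∀ a b : Y, a * b = b * a)
    (m : ℕ) (h0 : 0 < m) (he : ∀ y : Y, y ^ m = 1) : Nat.card Y ≤ m := by
  classical
  letI : CommGroup Y := { (inferInstance : Group Y) with mul_comm := hc }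
  have hx : ∀ a : Y, ∃ φ : Y →* ℂˣ, a ≠ 1 → φ a ≠ 1 := by
    intro a
    by_cases ha : a = 1
    · exact ⟨1, fun h => absurd ha h⟩
    · haveI : NeZero ((Monoid.exponent Y : ℕ) : ℂ) :=
        ⟨by exact_mod_cast Monoid.exponent_ne_zero_of_finite⟩
      obtain ⟨φ, hφ⟩ := CommGroup.exists_apply_ne_one_of_hasEnoughRootsOfUnity Y ℂ ha
      exact ⟨φ, fun _ => hφ⟩
  choose φ hφ using hx
  have ind : ∀ J : Finset Y, (∃ a, (φ a).ker = ⊥) ∨ Subsingleton Y ∨
      ∃ N : Subgroup Y, N ≠ ⊥ ∧ ∀ j ∈ J, N ≤ (φ j).ker := by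
    intro J
    induction J using Finset.induction_on with
    | empty =>
      by_cases h : (⊤ : Subgroup Y) = ⊥
      · right; left
        refine ⟨fun a b => ?_⟩
        have ha : a ∈ (⊥ : Subgroup Y) := h ▸ Subgroup.mem_top a
        have hb : b ∈ (⊥ : Subgroup Y) := h ▸ Subgroup.mem_top b
        rw [Subgroup.mem_bot] at ha hb
        rw [ha, hb]
      · exact Or.inr (Or.inr ⟨⊤, h, by simp⟩)
    | insert a J _ ih =>
      rcases ih with h | h | ⟨N, hN, hle⟩
      · exact Or.inl h
      · exact Or.inr (Or.inl h)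
      · by_cases h : N ⊓ (φ a).ker = ⊥
        · rcases hm _ _ inferInstance inferInstance h with h | h
          · exact absurd h hN
          · exact Or.inl ⟨a, h⟩
        · refine Or.inr (Or.inr ⟨_, h, fun j hj => ?_⟩)
          rcases Finset.mem_insert.1 hj with rfl | hj
          · exact inf_le_right
          · exact inf_le_left.trans (hle j hj)
  have := Fintype.ofFinite Y
  rcases ind Finset.univ with ⟨a, h⟩ | h | ⟨N, hN, hle⟩
  · have hinj : Function.Injective ((Units.coeHom ℂ).comp (φ a)) :=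
      Units.val_injective.comp ((MonoidHom.ker_eq_bot_iff _).1 h)
    have := isCyclic_of_injective_ringHom _ hinj
    rw [← IsCyclic.exponent_eq_card]
    exact Nat.le_of_dvd h0 (Monoid.exponent_dvd_of_forall_pow_eq_one he)
  · rw [Nat.card_of_subsingleton (1 : Y)]; exact h0
  · exfalso
    apply hN
    rw [eq_bot_iff]
    intro a ha
    by_contra h1
    exact hφ a (fun h => h1 (h ▸ Subgroup.one_mem _)) (hle a (Finset.mem_univ _) ha)

variable {G : Type} [Group G] [Finite G] {Z P : Subgroup G} {τ : G →* G}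

lemma dich (h : Setup G Z P τ) (F : ∀ (H : Type) [Group H], Prop)
    (hQ : ∀ (H K : Type) [Group H] [Group K] (f : H →* K), Function.Surjective f → F H → F K)
    (hR : ∀ (H : Type) [Group H] (N1 N2 : Subgroup H) [N1.Normal] [N2.Normal],
      F (H ⧸ N1) → F (H ⧸ N2) → F (H ⧸ (N1 ⊓ N2)))
    {S : Type} [Group S] [Finite S] {ι : Type} [Finite ι] (π : ι → S →* G)
    (hs : ∀ i, Function.Surjective (π i)) (hi : ∀ s, (∀ i, π i s = 1) → s = 1)
    (Y : Type) [Group Y] (f : S →* Y) (hf : Function.Surjective f) (hF : F Y) (hm : Mono Y) :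
    Nat.card Y ≤ Nat.card G ∨ F G := by
  classical
  have : Finite Y := Finite.of_surjective f hf
  choose L hLn hL1 hL2 hL3 hL4 using comp π h hs hi
  by_cases hall : ∀ i, L i ≤ f.ker
  · left
    have hc := ab_case π h hs hi L hLn hL1 hL3 hL4 f.ker hall
    refine ab_small Y hm ?_ _ Nat.card_pos ?_
    · intro a b
      obtain ⟨a, rfl⟩ := hf a
      obtain ⟨b, rfl⟩ := hf b
      rw [← commutatorElement_eq_one_iff_mul_comm, ← map_commutatorElement]
      exact hc (Subgroup.commutator_mem_commutator (Subgroup.mem_top a) (Subgroup.mem_top b))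
    · intro y
      obtain ⟨a, rfl⟩ := hf y
      rw [← map_pow, hi (a ^ Nat.card G) fun i => by rw [map_pow, pow_card_eq_one'], map_one]
  push Not at hall
  obtain ⟨i, hiL⟩ := hall
  have hn := hLn i
  have uniq : ∀ a b : S, a⁻¹ * b ∈ L i → π i a = π i b → a = b := by
    intro a b hab e
    have := hL2 i _ hab (by rw [map_mul, map_inv, e, inv_mul_cancel])
    rwa [inv_mul_eq_one] at this
  have hcm : ∀ k, ∀ l ∈ L i, ⁅k, l⁆ ∈ L i := fun k l hl => by
    rw [commutatorElement_def]
    exact (L i).mul_mem (hn.conj_mem _ hl k) ((L i).inv_mem hl)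
  have hW : (f.ker ⊓ L i).map (π i) ≤ Z := by
    rcases h.nrm _ ((inferInstance : (f.ker ⊓ L i).Normal).map _ (hs i)) with h1 | h1
    · exact h1
    · exfalso
      apply hiL
      intro l hl
      have : π i l ∈ (f.ker ⊓ L i).map (π i) := h1 (hL1 i ▸ ⟨l, hl, rfl⟩)
      obtain ⟨l', hl', e⟩ := this
      rw [← uniq l' l ((L i).mul_mem ((L i).inv_mem hl'.2) hl) e]
      exact hl'.1
  rcases h.zsub _ hW with h0 | h0
  · right
    have hbot : ∀ l ∈ L i, f l = 1 → l = 1 := by
      intro l hl e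
      apply hL2 i l hl
      have : π i l ∈ (f.ker ⊓ L i).map (π i) := ⟨l, ⟨e, hl⟩, rfl⟩
      rwa [h0, Subgroup.mem_bot] at this
    have ex : ∀ s, ∃ l ∈ L i, π i l = (π i s)⁻¹ * τ (π i s) := by
      intro s
      have := h.tp (π i s)
      rw [← hL1 i] at this
      exact this
    choose l hl hl' using ex
    have hθ : ∀ s, π i (s * l s) = τ (π i s) := fun s => by rw [map_mul, hl']; group
    let θ : S →* S := MonoidHom.mk' (fun s => s * l s) (by
      intro s t
      apply uniq
      · have e : (s * t * l (s * t))⁻¹ * (s * l s * (t * l t)) =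
            (l (s * t))⁻¹ * (t⁻¹ * l s * t⁻¹⁻¹) * l t := by group
        rw [e]
        exact (L i).mul_mem ((L i).mul_mem ((L i).inv_mem (hl _)) (hn.conj_mem _ (hl s) _)) (hl t)
      · rw [hθ, map_mul (π i) (s * l s), hθ, hθ, map_mul, map_mul])
    have hθi : Function.Injective θ := by
      rw [injective_iff_map_eq_one]
      intro s e
      have e' : s * l s = 1 := e
      apply hL2 i
      · rw [mul_eq_one_iff_eq_inv] at e'
        rw [e']; exact (L i).inv_mem (hl s)
      · apply h.tinj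
        rw [← hθ, e', map_one, map_one]
    have hθs : Function.Surjective (f.comp θ) :=
      hf.comp (Finite.surjective_of_injective hθi)
    have h1 : F (S ⧸ f.ker) :=
      hQ _ _ (QuotientGroup.quotientKerEquivOfSurjective f hf).symm.toMonoidHom
        (MulEquiv.surjective _) hF
    have h2 : F (S ⧸ (f.comp θ).ker) :=
      hQ _ _ (QuotientGroup.quotientKerEquivOfSurjective _ hθs).symm.toMonoidHom
        (MulEquiv.surjective _) hF
    have h3 := hR S _ _ h1 h2
    have hle : f.ker ⊓ (f.comp θ).ker ≤ (π i).ker := by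
      rintro s ⟨hs1, hs2⟩
      have e1 : f s = 1 := hs1
      have e2 : f (s * l s) = 1 := hs2
      rw [map_mul, e1, one_mul] at e2
      have e3 := hθ s
      rw [hbot _ (hl s) e2, mul_one] at e3
      have hz : π i s ∈ Z := by
        apply h.cent
        intro p hp
        rw [← hL1 i] at hp
        obtain ⟨a, ha, rfl⟩ := hp
        rw [← map_commutatorElement, hbot _ (hcm s a ha)
          (by rw [map_commutatorElement, e1]; simp), map_one]
        exact Z.one_mem
      rw [h.tz _ hz] at e3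
      have e4 := h.z3 _ hz
      rw [MonoidHom.mem_ker]
      calc π i s = (π i s) ^ 3 * (π i s)⁻¹ * (π i s)⁻¹ := by group
        _ = (π i s) ^ 3 * (π i s) * (π i s)⁻¹ := by rw [← e3]
        _ = 1 := by rw [e4]; group
    refine hQ _ _ (QuotientGroup.lift _ (π i) hle) ?_ h3
    intro g
    obtain ⟨s, rfl⟩ := hs i g
    exact ⟨QuotientGroup.mk s, rfl⟩
  · left
    have hd : (L i).map f ⊓ (π i).ker.map f = ⊥ := by
      rw [eq_bot_iff]
      rintro y ⟨⟨l, hl, rfl⟩, ⟨k, hk, e⟩⟩
      have hz : π i l ∈ Z := by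
        apply h.cent
        intro p hp
        rw [← hL1 i] at hp
        obtain ⟨a, ha, rfl⟩ := hp
        rw [← map_commutatorElement]
        refine hW ⟨_, ⟨?_, hcm l a ha⟩, rfl⟩
        change f ⁅l, a⁆ = 1
        have hk1 : π i k = 1 := hk
        rw [map_commutatorElement, ← e, ← map_commutatorElement, hL2 i _ (hcm k a ha)
          (by rw [map_commutatorElement, hk1]; simp), map_one]
      rw [← h0] at hz
      obtain ⟨l', hl', e'⟩ := hz
      rw [← uniq l' l ((L i).mul_mem ((L i).inv_mem hl'.2) hl) e']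
      exact hl'.1
    rcases hm _ _ (hn.map _ hf) ((inferInstance : (π i).ker.Normal).map _ hf) hd with h1 | h1
    · exact absurd ((Subgroup.map_eq_bot_iff _).1 h1) hiL
    · have hle := (Subgroup.map_eq_bot_iff _).1 h1
      have := Subgroup.index_dvd_of_le hle
      rw [Subgroup.index_ker, Subgroup.index_ker, MonoidHom.range_eq_top.2 hf,
        MonoidHom.range_eq_top.2 (hs i), Subgroup.card_top, Subgroup.card_top] at this
      exact Nat.le_of_dvd Nat.card_pos this

lemma all_of (F : ∀ (H : Type) [Group H], Prop)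
    (hQ : ∀ (H K : Type) [Group H] [Group K] (f : H →* K), Function.Surjective f → F H → F K)
    (hR : ∀ (H : Type) [Group H] (N1 N2 : Subgroup H) [N1.Normal] [N2.Normal],
      F (H ⧸ N1) → F (H ⧸ N2) → F (H ⧸ (N1 ⊓ N2))) (hG : F G)
    {S : Type} [Group S] {ι : Type} [Finite ι] (π : ι → S →* G)
    (hs : ∀ i, Function.Surjective (π i)) (hi : ∀ s, (∀ i, π i s = 1) → s = 1) : F S := by
  classical
  have ind : ∀ J : Finset ι, ∃ N : Subgroup S, ∃ _ : N.Normal, F (S ⧸ N) ∧
      ∀ j ∈ J, N ≤ (π j).ker := by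
    intro J
    induction J using Finset.induction_on with
    | empty =>
      refine ⟨⊤, inferInstance, hQ G _ 1 (fun y => ⟨1, ?_⟩) hG, by simp⟩
      have := QuotientGroup.subsingleton_quotient_top (G := S)
      exact Subsingleton.elim _ _
    | insert a J _ ih =>
      obtain ⟨N, hN, h1, hle⟩ := ih
      have h2 : F (S ⧸ (π a).ker) :=
        hQ _ _ (QuotientGroup.quotientKerEquivOfSurjective _ (hs a)).symm.toMonoidHom
          (MulEquiv.surjective _) hG
      refine ⟨N ⊓ (π a).ker, inferInstance, hR S _ _ h1 h2, fun j hj => ?_⟩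
      rcases Finset.mem_insert.1 hj with rfl | hj
      · exact inf_le_right
      · exact inf_le_left.trans (hle j hj)
  have := Fintype.ofFinite ι
  obtain ⟨N, hN, h1, hle⟩ := ind Finset.univ
  have hb : N ≤ (MonoidHom.id S).ker := fun s hs' => hi s fun j => hle j (Finset.mem_univ _) hs'
  exact hQ _ _ (QuotientGroup.lift N (MonoidHom.id S) hb) (fun s => ⟨QuotientGroup.mk s, rfl⟩) h1

def W (n : ℕ) : Type := Fin n

instance (n : ℕ) : Finite (W n) := inferInstanceAs (Finite (Fin n))

lemma det_le (B : ℕ) (F1 F2 : ∀ (H : Type) [Group H], Prop)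
    (hfin : ∀ (H : Type) [Group H], F1 H → Finite H)
    (hQ1 : ∀ (H K : Type) [Group H] [Group K] (f : H →* K), Function.Surjective f → F1 H → F1 K)
    (hQ : ∀ (H K : Type) [Group H] [Group K] (f : H →* K), Function.Surjective f → F2 H → F2 K)
    (hR : ∀ (H : Type) [Group H] (N1 N2 : Subgroup H) [N1.Normal] [N2.Normal],
      F2 (H ⧸ N1) → F2 (H ⧸ N2) → F2 (H ⧸ (N1 ⊓ N2)))
    (hsm : ∀ (H : Type) [Group H], F1 H → Mono H → Nat.card H ≤ B)
    (hag : ∀ n ≤ B, ∀ g : Group (W n), @F1 (W n) g → @F2 (W n) g) :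
    ∀ (H : Type) [Group H], F1 H → F2 H := by
  have key : ∀ n, ∀ (H : Type) [Group H], Nat.card H = n → F1 H → F2 H := by
    intro n
    induction n using Nat.strong_induction_on with
    | _ n ih =>
      intro H _ hc hH
      have := hfin H hH
      by_cases hm : Mono H
      · have hB := hsm H hH hm
        let e : W (Nat.card H) ≃ H := (Finite.equivFin H).symm
        letI g : Group (W (Nat.card H)) := e.group
        let e' : W (Nat.card H) ≃* H := e.mulEquiv
        exact hQ _ _ e'.toMonoidHom e'.surjective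
          (hag _ hB g (hQ1 _ _ e'.symm.toMonoidHom e'.symm.surjective hH))
      · unfold Mono at hm
        push Not at hm
        obtain ⟨N1, N2, h1, h2, hb, hn1, hn2⟩ := hm
        have lt : ∀ N : Subgroup H, N ≠ ⊥ → Nat.card (H ⧸ N) < n := by
          intro N hN
          have e := Subgroup.card_eq_card_quotient_mul_card_subgroup N
          have h1 : 1 < Nat.card N := (Subgroup.one_lt_card_iff_ne_bot N).2 hN
          have h2 : 0 < Nat.card (H ⧸ N) := Nat.card_pos
          rw [← hc, e]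
          nlinarith
        have g1 := ih _ (lt N1 hn1) (H ⧸ N1) rfl
          (hQ1 _ _ (QuotientGroup.mk' N1) (QuotientGroup.mk'_surjective _) hH)
        have g2 := ih _ (lt N2 hn2) (H ⧸ N2) rfl
          (hQ1 _ _ (QuotientGroup.mk' N2) (QuotientGroup.mk'_surjective _) hH)
        have hb' : N1 ⊓ N2 ≤ (MonoidHom.id H).ker := by rw [hb]; exact bot_le
        exact hQ _ _ (QuotientGroup.lift _ (MonoidHom.id H) hb')
          (fun s => ⟨QuotientGroup.mk s, rfl⟩) (hR H _ _ g1 g2)
  intro H _ hH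
  exact key _ H rfl hH

theorem finite_forms (h : Setup G Z P τ) :
    Set.Finite {F : ∀ (H : Type) [Group H], Prop |
        (∀ (H : Type) [Group H], F H → ∃ n : ℕ, ∃ S : Subgroup (Fin n → G),
            (∀ (i : Fin n) (g : G), ∃ s ∈ S, s i = g) ∧
            ∃ f : S →* H, Function.Surjective f) ∧
        (∀ (H K : Type) [Group H] [Group K] (f : H →* K),
            Function.Surjective f → F H → F K) ∧
        (∀ (H : Type) [Group H] (N1 N2 : Subgroup H) [N1.Normal] [N2.Normal],
            F (H ⧸ N1) → F (H ⧸ N2) → F (H ⧸ (N1 ⊓ N2)))} := by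
  set T := {F : ∀ (H : Type) [Group H], Prop |
        (∀ (H : Type) [Group H], F H → ∃ n : ℕ, ∃ S : Subgroup (Fin n → G),
            (∀ (i : Fin n) (g : G), ∃ s ∈ S, s i = g) ∧
            ∃ f : S →* H, Function.Surjective f) ∧
        (∀ (H K : Type) [Group H] [Group K] (f : H →* K),
            Function.Surjective f → F H → F K) ∧
        (∀ (H : Type) [Group H] (N1 N2 : Subgroup H) [N1.Normal] [N2.Normal],
            F (H ⧸ N1) → F (H ⧸ N2) → F (H ⧸ (N1 ⊓ N2)))} with hT
  have hπ : ∀ (n : ℕ) (S : Subgroup (Fin n → G)), (∀ (i : Fin n) (g : G), ∃ s ∈ S, s i = g) →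
      (∀ i, Function.Surjective ((Pi.evalMonoidHom (fun _ => G) i).comp S.subtype)) ∧
      ∀ s : S, (∀ i, ((Pi.evalMonoidHom (fun _ => G) i).comp S.subtype) s = 1) → s = 1 := by
    intro n S hS
    refine ⟨fun i g => ?_, fun s hs => Subtype.ext (funext hs)⟩
    obtain ⟨s, hs, e⟩ := hS i g
    exact ⟨⟨s, hs⟩, e⟩
  have hfinG : ∀ n, Finite (Group (W n)) := fun n =>
    Finite.of_injective (fun g : Group (W n) => (g.mul : W n → W n → W n))
      (fun g1 g2 e => Group.ext e)
  let r : (∀ (H : Type) [Group H], Prop) → Prop ×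
      ((n : Fin (Nat.card G + 1)) → Group (W n) → Prop) := fun F => (F G, fun n g => @F (W n) g)
  refine Set.Finite.of_finite_image (f := r) (Set.toFinite _) ?_
  have main : ∀ F1 ∈ T, ∀ F2 ∈ T, r F1 = r F2 → ∀ (H : Type) [Group H], F1 H → F2 H := by
    rintro F1 ⟨a1, b1, c1⟩ F2 ⟨a2, b2, c2⟩ e
    have e1 : F1 G = F2 G := congrArg Prod.fst e
    by_cases hG : F1 G
    · intro H _ hH
      obtain ⟨n, S, hS, f, hf⟩ := a1 H hH
      exact b2 _ _ f hf (all_of F2 b2 c2 (e1 ▸ hG) _ (hπ n S hS).1 (hπ n S hS).2)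
    · refine det_le (Nat.card G) F1 F2 ?_ b1 b2 c2 ?_ ?_
      · intro H _ hH
        obtain ⟨n, S, hS, f, hf⟩ := a1 H hH
        exact Finite.of_surjective f hf
      · intro H _ hH hm
        obtain ⟨n, S, hS, f, hf⟩ := a1 H hH
        exact (dich h F1 b1 c1 _ (hπ n S hS).1 (hπ n S hS).2 H f hf hH hm).resolve_right hG
      · intro n hn g hg
        have := congrFun (congrFun (congrArg Prod.snd e) ⟨n, Nat.lt_succ_of_le hn⟩) g
        exact (show @F1 (W n) g = @F2 (W n) g from this) ▸ hg
  intro F1 h1 F2 h2 e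
  funext H g
  exact propext ⟨main F1 h1 F2 h2 e H, main F2 h2 F1 h1 e.symm H⟩

end Pool.Agent.H.MP_3384ed_al
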