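import Pool.Agent.H.MP_3384ed_al.A

set_option autoImplicit false
set_option linter.unusedSectionVars false

namespace Pool.Agent.H.MP_3384ed_al

open scoped commutatorElement

lemma conj_pow_mem {H : Type} [Group H] (T : Subgroup H) (c : H)
    (h : ∀ t ∈ T, c * t * c⁻¹ ∈ T) (m : ℕ) : ∀ t ∈ T, c ^ m * t * (c ^ m)⁻¹ ∈ T := by
  induction m with
  | zero => simp
  | succ m ih =>
    intro t ht
    have e : c ^ (m + 1) * t * (c ^ (m + 1))⁻¹ = c * (c ^ m * t * (c ^ m)⁻¹) * c⁻¹ := by group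
    rw [e]; exact h _ (ih t ht)

lemma exN {H : Type} [Group H] [Finite H] (T : Subgroup H) (c : H)
    (h : ∀ t ∈ T, c * t * c⁻¹ ∈ T) (c3 : c ^ 3 = 1) (hc : c ∉ T) (hT : 81 ∣ Nat.card T)
    (hH : ¬ 729 ∣ Nat.card H) :
    ∃ N : Subgroup H, T ≤ N ∧ c ∈ N ∧ (∀ n ∈ N, ∃ k : ℕ, (c ^ k)⁻¹ * n ∈ T) ∧ ¬ 3 ∣ N.index := by
  have hinv : ∀ k : ℕ, (c ^ k)⁻¹ = c ^ (2 * k) := by
    intro k
    rw [inv_eq_iff_mul_eq_one, ← pow_add, show k + 2 * k = 3 * k by ring, pow_mul, c3, one_pow]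
  have h' : ∀ (m : ℕ), ∀ t ∈ T, (c ^ m)⁻¹ * t * c ^ m ∈ T := by
    intro m t ht
    have := conj_pow_mem T c h (2 * m) t ht
    rwa [← hinv, inv_inv] at this
  let N : Subgroup H :=
    { carrier := {n | ∃ k : ℕ, (c ^ k)⁻¹ * n ∈ T}
      one_mem' := ⟨0, by simp⟩
      mul_mem' := by
        rintro a b ⟨k, hk⟩ ⟨m, hm⟩
        refine ⟨k + m, ?_⟩
        have e : (c ^ (k + m))⁻¹ * (a * b) =
          ((c ^ m)⁻¹ * ((c ^ k)⁻¹ * a) * c ^ m) * ((c ^ m)⁻¹ * b) := by rw [pow_add]; group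
        rw [e]; exact T.mul_mem (h' m _ hk) hm
      inv_mem' := by
        rintro a ⟨k, hk⟩
        refine ⟨2 * k, ?_⟩
        have e : (c ^ (2 * k))⁻¹ * a⁻¹ = c ^ k * ((c ^ k)⁻¹ * a)⁻¹ * (c ^ k)⁻¹ := by
          rw [← hinv]; group
        rw [e]; exact conj_pow_mem T c h k _ (T.inv_mem hk) }
  have hTN : T ≤ N := fun t ht => ⟨0, by simpa using ht⟩
  have hcN : c ∈ N := ⟨1, by simp⟩
  refine ⟨N, hTN, hcN, fun n hn => hn, fun h3 => hH ?_⟩
  have hn : (T.subgroupOf N).Normal := ⟨fun t ht n => by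
    obtain ⟨k, hk⟩ := n.2
    rw [Subgroup.mem_subgroupOf] at ht ⊢
    have e : ((n * t * n⁻¹ : N) : H) =
      c ^ k * (((c ^ k)⁻¹ * n) * t * ((c ^ k)⁻¹ * n)⁻¹) * (c ^ k)⁻¹ := by
        push_cast; group
    rw [e]
    exact conj_pow_mem T c h k _ (T.mul_mem (T.mul_mem hk ht) (T.inv_mem hk))⟩
  have : Fact (Nat.Prime 3) := ⟨by norm_num⟩
  have ho : orderOf (QuotientGroup.mk (⟨c, hcN⟩ : N) : N ⧸ T.subgroupOf N) = 3 := by
    apply orderOf_eq_prime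
    · rw [← QuotientGroup.mk_pow]
      have : (⟨c, hcN⟩ : N) ^ 3 = 1 := Subtype.ext c3
      rw [this]; rfl
    · rw [Ne, QuotientGroup.eq_one_iff]; exact hc
  have h1 := orderOf_dvd_natCard (QuotientGroup.mk (⟨c, hcN⟩ : N) : N ⧸ T.subgroupOf N)
  rw [ho] at h1
  have h2 := Subgroup.card_eq_card_quotient_mul_card_subgroup (T.subgroupOf N)
  rw [Nat.card_congr (Subgroup.subgroupOfEquivOfLe hTN).toEquiv] at h2
  rw [← N.card_mul_index, h2]
  exact Nat.mul_dvd_mul (Nat.mul_dvd_mul h1 hT) h3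

lemma mult_abs {H : Type} [Group H] [Finite H] (T : Subgroup H) (h1 h2 w c : H)
    (e12 : h1 * h2 = h2 * h1) (w1 : w * h1 * w⁻¹ = h2⁻¹) (w2 : w * h2 * w⁻¹ = h1⁻¹)
    (hT : ∀ t ∈ T, ∃ i j : ℕ, t = h1 ^ i * h2 ^ j)
    (h : ∀ t ∈ T, c * t * c⁻¹ ∈ T) (c3 : c ^ 3 = 1) (hc : c ∉ T) (hT81 : 81 ∣ Nat.card T)
    (hH : ¬ 729 ∣ Nat.card H) (hfix : ∀ t ∈ T, c * t = t * c → t ∈ Subgroup.center H)
    (L : Type) [Group L] [Finite L] (π : L →* H) (hs : Function.Surjective π)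
    (hp : Group.IsPerfect L) (hz : ∀ l, π l ∈ Subgroup.center H → ∀ x, x * l = l * x)
    (h3 : ∀ l, π l = 1 → l ^ 3 = 1) : Function.Injective π := by
  obtain ⟨N, hTN, hcN, hN, hi⟩ := exN T c h c3 hc hT81 hH
  obtain ⟨x, rfl⟩ := hs h1
  obtain ⟨y, rfl⟩ := hs h2
  obtain ⟨w, rfl⟩ := hs w
  obtain ⟨c, rfl⟩ := hs c
  have hk : ∀ l, π l = 1 → ∀ x, x * l = l * x := fun l hl => hz l (hl ▸ Subgroup.one_mem _)
  have hxy : Commute x y := by
    have k1 : π ⁅x, y⁆ = 1 := by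
      rw [map_commutatorElement, commutatorElement_eq_one_iff_mul_comm, e12]
    set k := ⁅x, y⁆ with hkd
    have a1 : ∃ z, (∀ u, u * z = z * u) ∧ w * x * w⁻¹ = y⁻¹ * z :=
      ⟨y * (w * x * w⁻¹), hk _ (by simp only [map_mul, map_inv]; rw [w1]; simp), by group⟩
    have a2 : ∃ z, (∀ u, u * z = z * u) ∧ w * y * w⁻¹ = x⁻¹ * z :=
      ⟨x * (w * y * w⁻¹), hk _ (by simp only [map_mul, map_inv]; rw [w2]; simp), by group⟩
    obtain ⟨z1, hz1, a1⟩ := a1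
    obtain ⟨z2, hz2, a2⟩ := a2
    have e1 : ∀ x y : L, (∀ u : L, u * y = y * u) → ∀ v : L,
        x * y * v * (x * y)⁻¹ = x * v * x⁻¹ := by
      intro x y hy v
      rw [mul_assoc x y v, ← hy v]; group
    have b1 : k = ⁅y⁻¹, x⁻¹⁆ := by
      calc k = w * k * w⁻¹ := by rw [hk k k1 w]; group
        _ = ⁅w * x * w⁻¹, w * y * w⁻¹⁆ := by rw [hkd]; simp only [commutatorElement_def]; group
        _ = ⁅y⁻¹, x⁻¹⁆ := by
          rw [a1, a2, commutatorElement_def, e1 _ _ hz1, ← commutatorElement_def,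
            ← commutatorElement_inv, commutatorElement_def, e1 _ _ hz2, ← commutatorElement_def,
            commutatorElement_inv]
    have b2 : ⁅y⁻¹, x⁻¹⁆ = k⁻¹ := by
      have : ⁅y⁻¹, x⁻¹⁆ = (x * y)⁻¹ * k⁻¹ * (x * y) := by
        rw [hkd]; simp only [commutatorElement_def]; group
      rw [this, mul_assoc, ← hk k⁻¹ (by rw [map_inv, k1, inv_one]) (x * y)]; group
    rw [b2] at b1
    rw [← commutatorElement_eq_one_iff_commute, ← hkd]
    calc k = k ^ 3 * k⁻¹ * k⁻¹ := by group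
      _ = k ^ 3 * k * k⁻¹ := by rw [← b1]
      _ = 1 := by rw [h3 k k1]; group
  have hab : ∀ a ∈ T.comap π, ∀ b ∈ T.comap π, Commute a b := by
    have dec : ∀ a ∈ T.comap π, ∃ i j : ℕ, ∃ z, (∀ u, Commute u z) ∧ a = x ^ i * y ^ j * z := by
      intro a ha
      obtain ⟨i, j, e⟩ := hT _ ha
      refine ⟨i, j, (x ^ i * y ^ j)⁻¹ * a, hk _ ?_, by group⟩
      rw [map_mul, map_inv, e, map_mul, map_pow, map_pow, inv_mul_cancel]
    intro a ha b hb
    obtain ⟨i, j, z, hz, rfl⟩ := dec a ha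
    obtain ⟨i', j', z', hz', rfl⟩ := dec b hb
    refine Commute.mul_right ?_ (hz' _)
    refine Commute.mul_left ?_ (hz _).symm
    exact Commute.mul_left (Commute.mul_right ((Commute.refl x).pow_pow _ _) (hxy.pow_pow _ _))
      (Commute.mul_right (hxy.symm.pow_pow _ _) ((Commute.refl y).pow_pow _ _))
  have hcT : ∀ t ∈ T.comap π, c * t * c⁻¹ ∈ T.comap π := fun t ht => by
    rw [Subgroup.mem_comap, map_mul, map_mul, map_inv]; exact h _ ht
  let D : Subgroup L :=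
    { carrier := {a | ∃ t ∈ T.comap π, a = c * t * c⁻¹ * t⁻¹}
      one_mem' := ⟨1, Subgroup.one_mem _, by simp⟩
      mul_mem' := by
        rintro a b ⟨t, ht, rfl⟩ ⟨u, hu, rfl⟩
        refine ⟨t * u, Subgroup.mul_mem _ ht hu, ?_⟩
        have := (hab _ (Subgroup.inv_mem _ ht) _
          (Subgroup.mul_mem _ (hcT u hu) (Subgroup.inv_mem _ hu))).eq
        rw [mul_assoc (c * t * c⁻¹), this]; group
      inv_mem' := by
        rintro a ⟨t, ht, rfl⟩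
        refine ⟨t⁻¹, Subgroup.inv_mem _ ht, ?_⟩
        have := (hab _ ht _ (hcT _ (Subgroup.inv_mem _ ht))).eq
        rw [inv_inv, ← this]; group }
  have hDT : D ≤ T.comap π := by
    rintro a ⟨t, ht, rfl⟩
    exact Subgroup.mul_mem _ (hcT t ht) (Subgroup.inv_mem _ ht)
  have hcD : ∀ d ∈ D, c * d * c⁻¹ ∈ D := by
    rintro a ⟨t, ht, rfl⟩
    exact ⟨c * t * c⁻¹, hcT t ht, by group⟩
  have hN' : ∀ n ∈ N.comap π, ∃ k : ℕ, (c ^ k)⁻¹ * n ∈ T.comap π := by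
    intro n hn
    obtain ⟨k, hk⟩ := hN _ hn
    exact ⟨k, by rw [Subgroup.mem_comap, map_mul, map_inv, map_pow]; exact hk⟩
  have hconj : ∀ (n : L) (k : ℕ), (c ^ k)⁻¹ * n ∈ T.comap π → ∀ t ∈ T.comap π,
      n * t * n⁻¹ = c ^ k * t * (c ^ k)⁻¹ := by
    intro n k hk t ht
    calc n * t * n⁻¹ = c ^ k * (((c ^ k)⁻¹ * n) * t) * n⁻¹ := by group
      _ = c ^ k * (t * ((c ^ k)⁻¹ * n)) * n⁻¹ := by rw [(hab _ hk _ ht).eq]
      _ = _ := by group
  have hDn : (D.subgroupOf (N.comap π)).Normal := ⟨fun d hd n => by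
    obtain ⟨k, hk⟩ := hN' _ n.2
    rw [Subgroup.mem_subgroupOf] at hd ⊢
    push_cast
    rw [hconj _ k hk _ (hDT hd)]
    exact conj_pow_mem D c hcD k _ hd⟩
  have hpw : ∀ (m : ℕ), ∀ t ∈ T.comap π, c ^ m * t * (c ^ m)⁻¹ * t⁻¹ ∈ D := by
    intro m t ht
    induction m with
    | zero => simp
    | succ m ih =>
      have e : c ^ (m + 1) * t * (c ^ (m + 1))⁻¹ * t⁻¹ =
          (c * (c ^ m * t * (c ^ m)⁻¹) * c⁻¹ * (c ^ m * t * (c ^ m)⁻¹)⁻¹) *
            (c ^ m * t * (c ^ m)⁻¹ * t⁻¹) := by group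
      rw [e]
      exact D.mul_mem ⟨_, conj_pow_mem _ c hcT m t ht, rfl⟩ ih
  have hcomm : commutator (N.comap π) ≤ D.subgroupOf (N.comap π) := by
    refine comm_le _ ⟨c, hcN⟩ fun s => ?_
    obtain ⟨k, hk⟩ := hN' _ s.2
    refine ⟨k, fun u => ?_⟩
    obtain ⟨m, hm⟩ := hN' _ u.2
    rw [Subgroup.mem_subgroupOf, commutatorElement_def]
    push_cast
    have := hpw m _ hk
    rw [← hconj _ m hm _ hk] at this
    exact this
  rw [injective_iff_map_eq_one]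
  intro z hz1
  have key : ∀ (k : ℕ) (g₀ : L), g₀⁻¹ * z ^ k * g₀ ∈ N.comap π → g₀⁻¹ * z ^ k * g₀ = z ^ k := by
    intro k g _
    rw [hk (z ^ k) (by rw [map_pow, hz1, one_pow]) g⁻¹]; group
  have t1 := MonoidHom.transfer_eq_pow (Abelianization.of (G := N.comap π)) z key
  have t2 : MonoidHom.transfer (Abelianization.of (G := N.comap π)) z = 1 :=
    Abelianization.commutator_subset_ker _ Group.IsPerfect.mem_commutator
  rw [t2] at t1
  have t3 := hcomm (Abelianization.ker_of (N.comap π) ▸ (MonoidHom.mem_ker.2 t1.symm))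
  obtain ⟨t, ht, e⟩ := Subgroup.mem_subgroupOf.1 t3
  have e' : z ^ (N.comap π).index = c * t * c⁻¹ * t⁻¹ := e
  have hcen : π t ∈ Subgroup.center H := by
    apply hfix _ ht
    have := congrArg π e'
    rw [map_pow, hz1, one_pow, ← commutatorElement_def, map_commutatorElement] at this
    exact commutatorElement_eq_one_iff_mul_comm.1 this.symm
  rw [hz t hcen c, Subgroup.index_comap_of_surjective _ hs] at e'
  have e2 : z ^ N.index = 1 := by rw [e']; group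
  have := pow_gcd_eq_one.2 ⟨h3 z hz1, e2⟩
  rwa [(Nat.Prime.coprime_iff_not_dvd (by norm_num)).2 hi, pow_one] at this

end Pool.Agent.H.MP_3384ed_al
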