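import Pool.Agent.H.MP_3384ed_al.C
import Pool.Agent.Lib.helper16.PSL

set_option autoImplicit false
set_option linter.unusedSectionVars false

namespace Pool.Agent.H.MP_3384ed_al

open scoped commutatorElement
open Matrix

abbrev K : Type := GaloisField 2 6

lemma cardK : Nat.card K = 64 := GaloisField.card 2 6 (by norm_num)

abbrev SL3 : Type := SpecialLinearGroup (Fin 3) K

instance : Finite SL3 := inferInstanceAs (Finite {A : Matrix (Fin 3) (Fin 3) K // A.det = 1})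

lemma exgen : ∃ a : Kˣ, orderOf a = 63 ∧ ∀ u : Kˣ, ∃ i : ℕ, u = a ^ i := by
  obtain ⟨a, ha⟩ := IsCyclic.exists_monoid_generator (α := Kˣ)
  refine ⟨a, ?_, fun u => ?_⟩
  · rw [orderOf_eq_card_of_forall_mem_powers ha, Nat.card_units, cardK]
  · obtain ⟨i, hi⟩ := ha u
    exact ⟨i, hi.symm⟩

lemma cardU : Nat.card Kˣ = 63 := by rw [Nat.card_units, cardK]

lemma cardSL : ¬ 729 ∣ Nat.card SL3 := by
  have := Fintype.ofFinite K
  have h1 := Matrix.card_GL_field (𝔽 := K) 3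
  rw [← Nat.card_eq_fintype_card, cardK] at h1
  have h2 := (GeneralLinearGroup.det : GL (Fin 3) K →* Kˣ).ker.card_mul_index
  rw [Subgroup.index_ker, MonoidHom.range_eq_top.2 GeneralLinearGroup.det_surjective,
    Subgroup.card_top, cardU, h1] at h2
  have h3 : (GeneralLinearGroup.det : GL (Fin 3) K →* Kˣ).ker =
      (SpecialLinearGroup.toGL : SL3 →* GL (Fin 3) K).range := by
    ext x
    simpa [Units.ext_iff] using ⟨fun hx ↦ ⟨⟨x, hx⟩, rfl⟩, fun ⟨y, hy⟩ ↦ by simp [← hy]⟩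
  rw [h3, ← Nat.card_congr (MonoidHom.ofInjective SpecialLinearGroup.toGL_injective).toEquiv] at h2
  have h4 : ∏ i : Fin 3, (64 ^ 3 - 64 ^ (i : ℕ)) = 281405183754240 * 63 := by
    simp only [Fin.prod_univ_three]; norm_num
  rw [h4] at h2
  rw [Nat.eq_of_mul_eq_mul_right (by norm_num) h2]
  norm_num

def vl (A : SL3) : Matrix (Fin 3) (Fin 3) K := A.1

lemma vl_mul (A B : SL3) : vl (A * B) = vl A * vl B := rfl
lemma vl_one : vl 1 = 1 := rfl
lemma vl_ext {A B : SL3} (h : vl A = vl B) : A = B := Subtype.ext h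
lemma mem_cen {A : SL3} : A ∈ Subgroup.center SL3 ↔ ∃ r : K, r ^ 3 = 1 ∧ scalar (Fin 3) r = vl A :=
  Matrix.SpecialLinearGroup.mem_center_iff

lemma two0 : (2 : K) = 0 := CharTwo.two_eq_zero

noncomputable def dg : Kˣ × Kˣ →* SL3 where
  toFun u := ⟨diagonal ![(u.1 : K), ((u.1⁻¹ * u.2 : Kˣ) : K), ((u.2⁻¹ : Kˣ) : K)], by
    simp [det_diagonal, Fin.prod_univ_three]⟩
  map_one' := by
    ext i j; fin_cases i <;> fin_cases j <;> simp
  map_mul' u v := by
    ext i j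
    fin_cases i <;> fin_cases j <;> simp <;> ring

lemma dg_val (u : Kˣ × Kˣ) : vl (dg u) =
    diagonal ![(u.1 : K), ((u.1⁻¹ * u.2 : Kˣ) : K), ((u.2⁻¹ : Kˣ) : K)] := rfl

lemma dg_inj : Function.Injective dg := by
  rw [injective_iff_map_eq_one]
  intro u h
  have h0 := congrArg (fun A : SL3 => vl A 0 0) h
  have h2 := congrArg (fun A : SL3 => vl A 2 2) h
  simp [dg_val, vl_one] at h0 h2
  exact Prod.ext h0 h2

noncomputable def cc : SL3 := ⟨!![0, 0, 1; 1, 0, 0; 0, 1, 0], by simp [det_fin_three]⟩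

noncomputable def ww : SL3 := ⟨!![0, 0, 1; 0, 1, 0; 1, 0, 0], by
  simp [det_fin_three, CharTwo.neg_eq]⟩

lemma cc_val : vl cc = !![0, 0, 1; 1, 0, 0; 0, 1, 0] := rfl
lemma ww_val : vl ww = !![0, 0, 1; 0, 1, 0; 1, 0, 0] := rfl

lemma cc_dg (u : Kˣ × Kˣ) : cc * dg u = dg (u.2⁻¹, u.1 * u.2⁻¹) * cc := by
  apply vl_ext
  rw [vl_mul, vl_mul, dg_val, dg_val, cc_val]
  ext i j
  fin_cases i <;> fin_cases j <;> simp [Matrix.mul_apply, diagonal, mul_comm]

lemma ww_dg (u : Kˣ × Kˣ) : ww * dg u = dg (u.2⁻¹, u.1⁻¹) * ww := by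
  apply vl_ext
  rw [vl_mul, vl_mul, dg_val, dg_val, ww_val]
  ext i j
  fin_cases i <;> fin_cases j <;> simp [Matrix.mul_apply, diagonal, mul_comm]

lemma cc3 : cc ^ 3 = 1 := by
  apply vl_ext
  simp only [pow_succ, pow_zero, one_mul, vl_mul, cc_val, vl_one]
  ext i j
  fin_cases i <;> fin_cases j <;> simp [Matrix.mul_apply, Fin.sum_univ_three]

theorem multSL (L : Type) [Group L] [Finite L] (π : L →* SL3) (hs : Function.Surjective π)
    (hp : Group.IsPerfect L) (hz : ∀ l, π l ∈ Subgroup.center SL3 → ∀ x, x * l = l * x)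
    (h3 : ∀ l, π l = 1 → l ^ 3 = 1) : Function.Injective π := by
  obtain ⟨a, -, ha⟩ := exgen
  refine mult_abs dg.range (dg (a, 1)) (dg (1, a)) ww cc ?_ ?_ ?_ ?_ ?_ cc3 ?_ ?_ cardSL ?_
    L π hs hp hz h3
  · rw [← map_mul, ← map_mul, mul_comm]
  · rw [ww_dg, mul_inv_cancel_right, ← map_inv]; simp
  · rw [ww_dg, mul_inv_cancel_right, ← map_inv]; simp
  · rintro _ ⟨⟨u, v⟩, rfl⟩
    obtain ⟨i, rfl⟩ := ha u
    obtain ⟨j, rfl⟩ := ha v
    exact ⟨i, j, by rw [← map_pow, ← map_pow, ← map_mul]; simp⟩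
  · rintro _ ⟨u, rfl⟩
    rw [cc_dg, mul_inv_cancel_right]
    exact ⟨_, rfl⟩
  · rintro ⟨u, h⟩
    have h0 := congrArg (fun A : SL3 => vl A 0 2) h
    simp [dg_val, cc_val] at h0
  · rw [← Nat.card_congr (MonoidHom.ofInjective dg_inj).toEquiv, Nat.card_prod, cardU]
    norm_num
  · rintro _ ⟨⟨u, v⟩, rfl⟩ h
    rw [cc_dg, mul_left_inj] at h
    have h' := dg_inj h
    simp only [Prod.mk.injEq] at h'
    obtain ⟨rfl, h2⟩ := h'
    have h3 : v ^ 3 = 1 := by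
      calc v ^ 3 = v * v * v := by rw [pow_succ, pow_two]
        _ = v * v * (v⁻¹ * v⁻¹) := by rw [h2]
        _ = 1 := by group
    rw [mem_cen]
    refine ⟨((v⁻¹ : Kˣ) : K), ?_, ?_⟩
    · rw [← Units.val_pow_eq_pow_val, inv_pow, h3]; simp
    · rw [dg_val]
      have h4 : v⁻¹⁻¹ * v = v⁻¹ := by
        rw [inv_inv, eq_inv_iff_mul_eq_one, ← h3, pow_succ, pow_two]
      simp only [h4]
      ext i j
      fin_cases i <;> fin_cases j <;> simp

end Pool.Agent.H.MP_3384ed_al
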