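import Pool.Agent.H.MP_3384ed_al.B
import Pool.Agent.H.MP_3384ed_al.D

set_option autoImplicit false
set_option linter.unusedSectionVars false

namespace Pool.Agent.H.MP_3384ed_al

open scoped commutatorElement
open Matrix SemidirectProduct

lemma pow64 (a : K) : a ^ 64 = a := by
  have := Fintype.ofFinite K
  have h := FiniteField.pow_card a
  rwa [← Nat.card_eq_fintype_card, cardK] at h

noncomputable def sg : SL3 →* SL3 := Matrix.SpecialLinearGroup.map (iterateFrobenius K 2 2)

lemma sg_val (A : SL3) (i j : Fin 3) : vl (sg A) i j = vl A i j ^ 4 := rfl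

lemma sg3 (A : SL3) : sg (sg (sg A)) = A := by
  apply vl_ext
  ext i j
  rw [sg_val, sg_val, sg_val, ← pow_mul, ← pow_mul, pow64]

noncomputable def ss : MulAut SL3 :=
  MonoidHom.toMulEquiv sg (sg.comp sg) (MonoidHom.ext sg3) (MonoidHom.ext sg3)

lemma ss_apply (A : SL3) : ss A = sg A := rfl

lemma ss3 : ss ^ 3 = 1 := by
  ext1 A
  exact sg3 A

noncomputable def tr (a : K) : SL3 := ⟨!![a, 0, 1; 1, 0, 0; 0, 1, 0], by simp [det_fin_three]⟩

lemma tr_val (a : K) : vl (tr a) = !![a, 0, 1; 1, 0, 0; 0, 1, 0] := rfl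

lemma outer (k : ℕ) (hk : k < 3) (g : SL3)
    (h : ∀ x, g * (ss ^ k) x * g⁻¹ * x⁻¹ ∈ Subgroup.center SL3) : k = 0 := by
  obtain ⟨a, ha, -⟩ := exgen
  obtain ⟨r, hr, e⟩ := mem_cen.1 (h (tr a))
  have e1 : vl g * vl ((ss ^ k) (tr a)) * vl g⁻¹ = scalar (Fin 3) r * vl (tr a) := by
    rw [e, ← vl_mul, ← vl_mul, ← vl_mul]; congr 1; group
  have e2 := congrArg trace e1
  rw [trace_mul_cycle, ← vl_mul, inv_mul_cancel, vl_one, one_mul] at e2
  have e3 : trace (scalar (Fin 3) r * vl (tr a)) = r * a := by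
    simp [tr_val, trace, Fin.sum_univ_three]
  have e4 : trace (vl ((ss ^ k) (tr a))) = (a : K) ^ (4 ^ k) := by
    interval_cases k
    · simp [tr_val]
    · simp only [pow_one, ss_apply, trace, Fin.sum_univ_three, diag_apply, sg_val, tr_val]; simp
    · have : (ss ^ 2) (tr a) = sg (sg (tr a)) := rfl
      simp only [this, trace, Fin.sum_univ_three, diag_apply, sg_val, tr_val]
      simp [← pow_mul]
  rw [e3, e4] at e2
  have e5 : a ^ (4 ^ k * 3) = a ^ 3 := by
    apply Units.ext
    rw [Units.val_pow_eq_pow_val, Units.val_pow_eq_pow_val, pow_mul, e2, mul_pow, hr, one_mul]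
  rw [pow_eq_pow_iff_modEq, ha] at e5
  interval_cases k
  · rfl
  · exact absurd e5 (by decide)
  · exact absurd e5 (by decide)

lemma ord_ss : orderOf ss = 3 := by
  have : Fact (Nat.Prime 3) := ⟨by norm_num⟩
  refine orderOf_eq_prime ss3 fun h => ?_
  have := outer 1 (by norm_num) 1 fun x => by simp [h]
  omega

abbrev Ga : Type := Subgroup.zpowers ss

lemma cardGa : Nat.card Ga = 3 := by rw [Nat.card_zpowers, ord_ss]

instance : Finite Ga := Nat.finite_of_card_ne_zero (by rw [cardGa]; norm_num)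

lemma exGa (γ : Ga) : ∃ k < 3, γ.1 = ss ^ k := by
  obtain ⟨k, hk⟩ := γ.2
  refine ⟨(k % 3).toNat, by omega, ?_⟩
  have e : ss ^ k = γ.1 := hk
  rw [← e, ← zpow_natCast, Int.toNat_of_nonneg (by omega), ← zpow_mod_orderOf, ord_ss]
  rfl

abbrev GG : Type := SL3 ⋊[(Subgroup.zpowers ss).subtype] Ga

instance : Finite GG := Finite.of_equiv _ SemidirectProduct.equivProd.symm

noncomputable def t0 : SL3 →* SL3 := MonoidHom.mk' (fun A => (A⁻¹).transpose) (by
  intro A B
  apply vl_ext
  change (vl (A * B)⁻¹)ᵀ = (vl A⁻¹)ᵀ * (vl B⁻¹)ᵀ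
  rw [_root_.mul_inv_rev, vl_mul, transpose_mul])

lemma t0_val (A : SL3) : vl (t0 A) = (vl A⁻¹)ᵀ := rfl

lemma t0_sg (A : SL3) : t0 (sg A) = sg (t0 A) := by
  apply vl_ext
  ext i j
  rw [sg_val, t0_val, t0_val, ← map_inv, transpose_apply, transpose_apply, sg_val]

lemma t0_pow (k : ℕ) (A : SL3) : t0 ((ss ^ k) A) = (ss ^ k) (t0 A) := by
  induction k with
  | zero => rfl
  | succ k ih => rw [pow_succ', MulAut.mul_apply, MulAut.mul_apply, ss_apply, t0_sg, ih]; rfl

lemma t0_inj : Function.Injective t0 := by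
  rw [injective_iff_map_eq_one]
  intro A h
  have := congrArg vl h
  rw [t0_val, vl_one, transpose_eq_one] at this
  exact inv_eq_one.1 (vl_ext this)

noncomputable def ta : GG →* GG := SemidirectProduct.map t0 (MonoidHom.id _) (by
  intro γ
  ext1 A
  obtain ⟨k, -, hk⟩ := exGa γ
  change t0 (γ.1 A) = γ.1 (t0 A)
  rw [hk, t0_pow])

lemma cen_fix (z : SL3) (hz : z ∈ Subgroup.center SL3) (k : ℕ) : (ss ^ k) z = z := by
  obtain ⟨r, hr, e⟩ := mem_cen.1 hz
  have : sg z = z := by
    apply vl_ext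
    ext i j
    rw [sg_val, ← e]
    by_cases h : i = j
    · subst h
      simp only [scalar_apply, diagonal_apply_eq]
      rw [pow_succ, hr, one_mul]
    · simp [diagonal_apply_ne _ h]
  induction k with
  | zero => rfl
  | succ k ih => rw [pow_succ', MulAut.mul_apply, ih, ss_apply, this]

lemma cardZ : Nat.card (Subgroup.center SL3) = 3 := by
  obtain ⟨a, ha, -⟩ := exgen
  rw [Nat.card_congr (Matrix.SpecialLinearGroup.center_equiv_rootsOfUnity' (R := K)
    (0 : Fin 3)).toEquiv]
  have h : IsPrimitiveRoot (a ^ 21) 3 := by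
    have := (IsPrimitiveRoot.orderOf a)
    rw [ha] at this
    exact this.pow (by norm_num) (by norm_num)
  exact h.card_rootsOfUnity'

noncomputable def ZZ : Subgroup GG := (Subgroup.center SL3).map inl
noncomputable def PP : Subgroup GG := (inl : SL3 →* GG).range

lemma cardZZ : Nat.card ZZ = 3 := by
  rw [ZZ, Subgroup.card_map_of_injective inl_injective, cardZ]

lemma perf : Group.IsPerfect SL3 := Pool.Agent.Lib.helper16.PSL.SL_perfect (by simp)

lemma simp3 : IsSimpleGroup (SL3 ⧸ Subgroup.center SL3) :=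
  Pool.Agent.Lib.helper16.PSL.PSL_simple (by simp)

lemma nrmSL (N : Subgroup SL3) (hN : N.Normal) : N ≤ Subgroup.center SL3 ∨ N = ⊤ := by
  have := simp3
  rcases (hN.map _ (QuotientGroup.mk'_surjective (Subgroup.center SL3))).eq_bot_or_eq_top
    with h | h
  · left
    rwa [Subgroup.map_eq_bot_iff, QuotientGroup.ker_mk'] at h
  · right
    rw [eq_top_iff, ← perf.commutator_eq_top]
    refine comm_le N 1 fun s => ⟨0, fun x => ?_⟩
    have : QuotientGroup.mk' (Subgroup.center SL3) s ∈ N.map _ := h ▸ Subgroup.mem_top _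
    obtain ⟨n, hn, e⟩ := this
    have hz : n⁻¹ * s ∈ Subgroup.center SL3 := QuotientGroup.eq.1 e
    have e2 := Subgroup.mem_center_iff.1 hz
    have e3 : ⁅x, ((1 : SL3) ^ 0)⁻¹ * s⁆ = x * n * x⁻¹ * n⁻¹ := by
      calc _ = x * n * ((n⁻¹ * s) * x⁻¹) * s⁻¹ := by rw [commutatorElement_def]; group
        _ = _ := by rw [← e2]; group
    rw [e3]
    exact N.mul_mem (hN.conj_mem _ hn x) (N.inv_mem hn)

lemma PP_ker : PP = (rightHom : GG →* Ga).ker := range_inl_eq_ker_rightHom

instance : PP.Normal := by rw [PP_ker]; infer_instance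

lemma notcen : ¬ (⊤ : Subgroup SL3) ≤ Subgroup.center SL3 := by
  intro h
  obtain ⟨r, -, e⟩ := mem_cen.1 (h (Subgroup.mem_top cc))
  have := congrFun (congrFun e 0) 2
  simp [cc_val] at this

theorem setup : Setup GG ZZ PP ta where
  zc := by
    rintro _ ⟨z, hz, rfl⟩ g
    obtain ⟨k, -, hk⟩ := exGa g.right
    ext1
    · change g.left * g.right.1 z = z * (1 : Ga).1 g.left
      rw [hk, cen_fix z hz, Subgroup.mem_center_iff.1 hz]; rfl
    · simp
  z3 := fun z hz => by
    have := pow_card_eq_one' (x := (⟨z, hz⟩ : ZZ))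
    rw [cardZZ] at this
    exact congrArg Subtype.val this
  zsub := fun W hW => by
    have h := Subgroup.card_dvd_of_le hW
    rw [cardZZ] at h
    rcases (Nat.dvd_prime (by norm_num)).1 h with h | h
    · exact Or.inl (Subgroup.card_eq_one.1 h)
    · exact Or.inr (Subgroup.eq_of_le_of_card_ge hW (by rw [h, cardZZ]))
  pp := by
    have := perf
    exact Subgroup.isPerfect_iff.1 (Group.IsPerfect.range _)
  pz := fun h => notcen fun x _ => by
    obtain ⟨z, hz, e⟩ := h ⟨x, rfl⟩
    rwa [← inl_injective e]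
  zp := Subgroup.map_le_range _ _
  cyc := ⟨inr ⟨ss, Subgroup.mem_zpowers _⟩, fun g => by
    obtain ⟨k, -, hk⟩ := exGa g.right
    refine ⟨k, ?_⟩
    rw [PP_ker, MonoidHom.mem_ker, map_mul, map_inv, map_pow, rightHom_inr, inv_mul_eq_one]
    exact Subtype.ext hk.symm⟩
  pn := inferInstance
  nrm := fun N hN => by
    rcases nrmSL (N.comap inl) inferInstance with h | h
    · left
      intro n hn
      obtain ⟨k, hk3, hk⟩ := exGa n.right
      have h0 := outer k hk3 n.left fun x => by
        apply h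
        rw [Subgroup.mem_comap]
        have e : (inl (n.left * (ss ^ k) x * n.left⁻¹ * x⁻¹) : GG) =
            n * (inl x * n⁻¹ * (inl x)⁻¹) := by
          rw [← hk, map_mul, map_mul, map_mul, map_inv, map_inv]
          have := inl_aut (φ := (Subgroup.zpowers ss).subtype) n.right x
          change inl (n.right.1 x) = _ at this
          rw [this, map_inv]
          conv_rhs => rw [← inl_left_mul_inr_right n]
          group
        rw [e]
        exact N.mul_mem hn (hN.conj_mem _ (N.inv_mem hn) _)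
      subst h0
      have h1 : n.right = 1 := Subtype.ext hk
      have h2 : inl n.left = n := by
        conv_rhs => rw [← inl_left_mul_inr_right n, h1, map_one, mul_one]
      exact ⟨n.left, h (by rw [Subgroup.mem_comap, h2]; exact hn), h2⟩
    · right
      rintro _ ⟨x, rfl⟩
      have : x ∈ N.comap inl := h ▸ Subgroup.mem_top x
      exact this
  tinj := fun a b h => by
    ext1
    · exact t0_inj (congrArg SemidirectProduct.left h)
    · have := congrArg SemidirectProduct.right h
      exact this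
  tz := by
    rintro _ ⟨z, hz, rfl⟩
    rw [ta, map_inl, ← map_inv]
    congr 1
    apply vl_ext
    obtain ⟨r, -, e⟩ := mem_cen.1 (Subgroup.inv_mem _ hz)
    rw [t0_val, ← e]
    simp
  tp := fun g => by
    rw [PP_ker, MonoidHom.mem_ker, map_mul, map_inv, inv_mul_eq_one]; rfl
  mult := by
    intro L _ _ π hr hp hz h3
    have hm : ∀ l, π l ∈ (inl : SL3 →* GG).range := fun l => by
      change π l ∈ PP
      rw [← hr]; exact ⟨l, rfl⟩
    let e := MonoidHom.ofInjective (inl_injective (φ := (Subgroup.zpowers ss).subtype))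
    let ρ : L →* SL3 := e.symm.toMonoidHom.comp (π.codRestrict _ hm)
    have hρ : ∀ l, inl (ρ l) = π l := fun l =>
      congrArg Subtype.val (e.apply_symm_apply ⟨π l, hm l⟩)
    have := multSL L ρ (fun x => by
        have : (inl x : GG) ∈ π.range := hr ▸ ⟨x, rfl⟩
        obtain ⟨l, hl⟩ := this
        exact ⟨l, inl_injective (by rw [hρ, hl])⟩) hp
      (fun l hl => hz l ⟨_, hl, hρ l⟩) (fun l hl => h3 l (by rw [← hρ, hl, map_one]))
    intro a b hab
    exact this (inl_injective (φ := (Subgroup.zpowers ss).subtype) (by rw [hρ, hρ, hab]))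

end Pool.Agent.H.MP_3384ed_al
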